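import Mathlib

/-! The finite check: norm form of `ℤ[θ]`, `θ³ = aθ² + bθ + 1`, on small boxes. -/

namespace Pool.Agent.P.MP_d44d58_nt

/-- Norm of `p + qθ + rθ²` where `θ³ = aθ² + bθ + 1`. -/
def G (a b p q r : ℤ) : ℤ :=
  p ^ 3 + p ^ 2 * q * a + p ^ 2 * r * (a ^ 2 + 2 * b) - p * q ^ 2 * b - p * q * r * (a * b + 3) +
    p * r ^ 2 * (b ^ 2 - 2 * a) + q ^ 3 + q ^ 2 * r * a - q * r ^ 2 * b + r ^ 3

/-- Minus the discriminant of `t³ - a t² - b t - 1`. -/
def D (a b : ℤ) : ℤ := -(a * a * b * b + 4 * b * b * b - 4 * a * a * a - 18 * a * b - 27)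

lemma D_eq (a b : ℤ) :
    D a b = -(a ^ 2 * b ^ 2 + 4 * b ^ 3 - 4 * a ^ 3 - 18 * a * b - 27) := by
  unfold D; ring

/-- Bounded universal quantifier over an integer interval. -/
def allI (f : ℤ → Bool) (lo : ℤ) : ℕ → Bool
  | 0 => true
  | n + 1 => f (Int.add lo (Int.ofNat n)) && allI f lo n

lemma allI_spec {f : ℤ → Bool} {lo : ℤ} {n : ℕ} (h : allI f lo n = true) {x : ℤ} (h1 : lo ≤ x)
    (h2 : x < lo + n) : f x = true := by
  induction n with
  | zero => omega
  | succ n ih =>
    simp only [allI, Bool.and_eq_true] at h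
    by_cases hx : x = lo + n
    · rw [hx]; exact h.1
    · exact ih h.2 (by push_cast at h2; omega)

/-- Strict evaluation of a natural number argument. -/
def forceN (n : ℕ) (f : ℕ → Bool) : Bool := Nat.rec (f 0) (fun k _ => f (Nat.succ k)) n

lemma forceN_eq (n : ℕ) (f : ℕ → Bool) : forceN n f = f n := by cases n <;> rfl

/-- Strict evaluation of an integer argument. -/
def force (x : ℤ) (f : ℤ → Bool) : Bool :=
  match x with
  | Int.ofNat n => forceN n fun k => f (Int.ofNat k)
  | Int.negSucc n => forceN n fun k => f (Int.negSucc k)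

lemma force_eq (x : ℤ) (f : ℤ → Bool) : force x f = f x := by
  cases x <;> simp [force, forceN_eq]

/-- The exceptional pairs with real root larger than one. -/
def exc (c m : ℤ) : Bool :=
  (c == 1 && m == 0) || (c == 1 && m == 1) || (c == 2 && m == -1) || (c == 2 && m == 2) ||
    (c == 3 && m == -2) || (c == 5 && m == -3)

/-- The innermost test. -/
def chk4 (s1 s2 s3 p : ℤ) : Bool :=
  !(Nat.beq (Int.add (Int.mul (Int.add (Int.mul (Int.add p s1) p) s2) p) s3).natAbs 2)

/-- The test for fixed `q`, `r`. -/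
def chk3 (a b q r : ℤ) : Bool :=
  force (q * a + r * (a * a + 2 * b)) fun s1 =>
  force (r * r * (b * b - 2 * a) - q * q * b - q * r * (a * b + 3)) fun s2 =>
  force (q * q * q + q * q * r * a - q * r * r * b + r * r * r) fun s3 =>
  force ((-19 - s1) / 3) fun lo => allI (fun p => force p (chk4 s1 s2 s3)) lo 14

/-- The test for one pair. -/
def chk (c m : ℤ) : Bool :=
  force (2 * c) fun a => force (2 * m) fun b => force (D a b) fun d =>
  force ((16 * c + 27) * (16 * c + 27)) fun B1 => force ((22 * c + 30) * (22 * c + 30)) fun B2 =>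
  decide (c + m ≤ 0) || m == c + 1 || decide (d ≤ 0) || exc c m ||
    (decide (B2 < d * 961) &&
      allI (fun r => force r fun r => decide (B1 < d * r * r) ||
        allI (fun q => force q fun q => decide (B2 < d * q * q) ||
          force (q - a * r) fun q => chk3 a b q r) (-30) 61) (-30) 61)

theorem chk_all : allI (fun c => force c fun c =>
    allI (fun m => force m fun m => chk c m) (-9) 19) 0 33 = true := by
  decide +kernel

theorem finite_check {c m p q r : ℤ} (hc0 : 0 ≤ c) (hc : c ≤ 32) (hm : |m| ≤ 9) (h1 : 0 < c + m)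
    (h2 : m ≠ c + 1) (h3 : 0 < D (2 * c) (2 * m))
    (hr : D (2 * c) (2 * m) * r ^ 2 ≤ (16 * c + 27) ^ 2)
    (hq : D (2 * c) (2 * m) * (q + 2 * c * r) ^ 2 ≤ (22 * c + 30) ^ 2)
    (hs : |3 * p + 2 * c * q + (4 * c ^ 2 + 4 * m) * r| ≤ 19)
    (hG : |G (2 * c) (2 * m) p q r| = 2) : exc c m = true := by
  rw [abs_le] at hm hs
  have h0 := allI_spec chk_all hc0 (by omega)
  simp only [force_eq] at h0
  have h := allI_spec h0 hm.1 (by omega)
  by_contra hexc
  simp only [chk, force_eq, Bool.or_eq_true, decide_eq_true_eq, beq_iff_eq,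
    Bool.and_eq_true] at h
  rcases h with (((h | h) | h) | h) | ⟨h4, h⟩
  · omega
  · exact h2 h
  · omega
  · exact hexc h
  have key : ∀ x : ℤ, D (2 * c) (2 * m) * x ^ 2 ≤ (22 * c + 30) ^ 2 → -30 ≤ x ∧ x < -30 + 61 := by
    intro x hx
    have : x ^ 2 < 31 ^ 2 := by
      by_contra hh
      push Not at hh
      nlinarith
    have := abs_lt_of_sq_lt_sq' this (by norm_num)
    omega
  have hr' := key r (hr.trans (by nlinarith))
  have hq' := key _ hq
  have h5 := allI_spec h hr'.1 hr'.2
  simp only [Bool.or_eq_true, decide_eq_true_eq] at h5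
  have h6 := allI_spec (h5.resolve_left (by nlinarith)) hq'.1 hq'.2
  simp only [Bool.or_eq_true, decide_eq_true_eq] at h6
  have h7 := h6.resolve_left (by nlinarith)
  simp only [chk3, force_eq, add_sub_cancel_right] at h7
  have e : q * (2 * c) + r * (2 * c * (2 * c) + 2 * (2 * m)) =
    2 * c * q + (4 * c ^ 2 + 4 * m) * r := by ring
  rw [e] at h7
  rw [add_assoc] at hs
  generalize 2 * c * q + (4 * c ^ 2 + 4 * m) * r = s1 at h7 hs e
  have h8 := allI_spec h7 (x := p) (by omega) (by omega)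
  have e4 : (G (2 * c) (2 * m) p q r).natAbs = 2 := by
    rw [Int.abs_eq_natAbs] at hG; exact_mod_cast hG
  have e5 : Int.add (Int.mul (Int.add (Int.mul (Int.add p s1) p)
      (r * r * (2 * m * (2 * m) - 2 * (2 * c)) - q * q * (2 * m) - q * r * (2 * c * (2 * m) + 3))) p)
      (q * q * q + q * q * r * (2 * c) - q * r * r * (2 * m) + r * r * r) =
      G (2 * c) (2 * m) p q r := by
    simp only [G, Int.add_def, Int.mul_def, ← e]
    ring
  simp only [chk4] at h8
  rw [e5, e4] at h8
  simp at h8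

end Pool.Agent.P.MP_d44d58_nt
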