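import Pool.Agent.P.MP_d44d58_nt.Check

/-! Elements of norm `±2` in `ℤ[θ]` for complex cubic units `θ`. -/

open Complex

namespace Pool.Agent.P.MP_d44d58_nt

/-- `ρ`, `ω`, `conj ω` are the roots of `t³ - a t² - b t - 1`, and `ω` is not real. -/
structure Roots (a b : ℤ) (ρ : ℝ) (ω : ℂ) : Prop where
  him : ω.im ≠ 0
  ha : (a : ℝ) = ρ + 2 * ω.re
  hb : (b : ℝ) = -(2 * ρ * ω.re + normSq ω)
  h1 : ρ * normSq ω = 1

/-- `(x, w)` is the pair of embeddings of an element of `ℤ[θ]`. -/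
def S (ρ : ℝ) (ω : ℂ) (x : ℝ) (w : ℂ) : Prop :=
  ∃ p q r : ℤ, x = p + q * ρ + r * ρ ^ 2 ∧ w = p + q * ω + r * ω ^ 2

variable {a b : ℤ} {ρ : ℝ} {ω : ℂ}

lemma Roots.cubic_re (h : Roots a b ρ ω) : ρ ^ 3 = a * ρ ^ 2 + b * ρ + 1 := by
  rw [h.ha, h.hb]; linear_combination h.h1

lemma Roots.cubic_cx (h : Roots a b ρ ω) : ω ^ 3 = a * ω ^ 2 + b * ω + 1 := by
  have ha : (a : ℂ) = ((ρ + 2 * ω.re : ℝ) : ℂ) := by rw [← h.ha]; simp
  have hb : (b : ℂ) = ((-(2 * ρ * ω.re + normSq ω) : ℝ) : ℂ) := by rw [← h.hb]; simp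
  have h1 : ((ρ * normSq ω : ℝ) : ℂ) = 1 := by rw [h.h1]; simp
  have h2 : (2 * ω.re : ℂ) = ω + (starRingEnd ℂ) ω := by rw [add_conj]; simp
  push_cast at ha hb h1
  rw [normSq_eq_conj_mul_self] at hb h1
  rw [ha, hb]
  linear_combination h1 + (ρ * ω - ω ^ 2) * h2

lemma Roots.normSq_pos (h : Roots a b ρ ω) : 0 < normSq ω :=
  Complex.normSq_pos.2 fun h0 => h.him (by simp [h0])

lemma Roots.rho_pos (h : Roots a b ρ ω) : 0 < ρ := by
  have := h.normSq_pos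
  have h1 := h.h1
  by_contra hh
  push Not at hh
  nlinarith

lemma Roots.om_ne (h : Roots a b ρ ω) : ω ≠ 0 := fun h0 => h.him (by simp [h0])

lemma Roots.S_mul (h : Roots a b ρ ω) {x : ℝ} {w : ℂ} (hS : S ρ ω x w) :
    S ρ ω (x * ρ) (w * ω) := by
  obtain ⟨p, q, r, rfl, rfl⟩ := hS
  refine ⟨r, p + b * r, q + a * r, ?_, ?_⟩
  · push_cast; linear_combination r * h.cubic_re
  · push_cast; linear_combination r * h.cubic_cx

lemma Roots.S_div (h : Roots a b ρ ω) {x : ℝ} {w : ℂ} (hS : S ρ ω x w) :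
    S ρ ω (x / ρ) (w / ω) := by
  obtain ⟨p, q, r, rfl, rfl⟩ := hS
  refine ⟨q - b * p, r - a * p, p, ?_, ?_⟩
  · rw [div_eq_iff h.rho_pos.ne']; push_cast; linear_combination (-p) * h.cubic_re
  · rw [div_eq_iff h.om_ne]; push_cast; linear_combination (-p) * h.cubic_cx

lemma S_comb {x y : ℝ} {w z : ℂ} (m : ℤ) (h1 : S ρ ω x w) (h2 : S ρ ω y z) :
    S ρ ω (m * x + y) (m * w + z) := by
  obtain ⟨p, q, r, rfl, rfl⟩ := h1
  obtain ⟨p', q', r', rfl, rfl⟩ := h2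
  refine ⟨m * p + p', m * q + q', m * r + r', ?_, ?_⟩ <;> push_cast <;> ring

lemma ev_re (p q r : ℤ) :
    ((p : ℂ) + q * ω + r * ω ^ 2).re = p + q * ω.re + r * (ω.re ^ 2 - ω.im ^ 2) := by
  simp [pow_two]

lemma ev_im (p q r : ℤ) :
    ((p : ℂ) + q * ω + r * ω ^ 2).im = q * ω.im + r * (2 * ω.re * ω.im) := by
  simp [pow_two]; left; ring

lemma Roots.norm_eq (h : Roots a b ρ ω) (p q r : ℤ) :
    ((p : ℝ) + q * ρ + r * ρ ^ 2) * normSq ((p : ℂ) + q * ω + r * ω ^ 2) = G a b p q r := by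
  have h1 := h.h1
  have hb := h.hb
  rw [normSq_apply] at h1 hb
  rw [normSq_apply, ev_re, ev_im, G]
  push_cast
  rw [h.ha, hb]
  linear_combination (-3 * p * q * r - 2 * p * r ^ 2 * (ρ + 2 * ω.re) + q ^ 3 +
    q ^ 2 * r * (ρ + 2 * ω.re) + q * r ^ 2 * (2 * ρ * ω.re + (ω.re * ω.re + ω.im * ω.im)) +
    r ^ 3 * (ρ * (ω.re * ω.re + ω.im * ω.im) + 1) : ℝ) * h1

/-- Square root of the absolute discriminant. -/
noncomputable def del (ρ : ℝ) (ω : ℂ) : ℝ := 2 * |ω.im| * normSq (ω - ρ)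

lemma del_nonneg : 0 ≤ del ρ ω := by
  have := normSq_nonneg (ω - ρ)
  unfold del; positivity

lemma Roots.del_sq (h : Roots a b ρ ω) : del ρ ω ^ 2 = D a b := by
  have h1 := h.h1
  have hb := h.hb
  rw [normSq_apply] at h1 hb
  rw [del, mul_pow, mul_pow, sq_abs, normSq_apply, D_eq]
  push_cast
  rw [h.ha, hb]
  simp only [sub_re, ofReal_re, sub_im, ofReal_im, sub_zero]
  linear_combination (4 * (ρ + 2 * ω.re) ^ 3 -
    18 * (ρ + 2 * ω.re) * (2 * ρ * ω.re + (ω.re * ω.re + ω.im * ω.im)) +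
    27 * (ρ * (ω.re * ω.re + ω.im * ω.im) + 1)) * h1

lemma Roots.D_pos (h : Roots a b ρ ω) : 0 < D a b := by
  have h1 : 0 < normSq (ω - ρ) := Complex.normSq_pos.2 fun h0 => h.him (by
    have := congrArg Complex.im h0; simpa using this)
  have h2 := abs_pos.2 h.him
  have : (0 : ℝ) < D a b := by rw [← h.del_sq]; unfold del; positivity
  exact_mod_cast this

lemma bound_r (p q r : ℤ) : del ρ ω * |(r : ℝ)| ≤
    2 * |(p : ℝ) + q * ρ + r * ρ ^ 2| * |ω.im| + 2 * ‖(p : ℂ) + q * ω + r * ω ^ 2‖ * ‖ω - ρ‖ := by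
  set x := (p : ℝ) + q * ρ + r * ρ ^ 2 with hx
  set w := (p : ℂ) + q * ω + r * ω ^ 2 with hw
  have e : ω.im * normSq (ω - ρ) * r = x * ω.im + (w * (starRingEnd ℂ) (ω - ρ)).im := by
    rw [mul_im, hw, ev_re, ev_im, normSq_apply, hx]
    simp only [sub_re, ofReal_re, sub_im, ofReal_im, sub_zero, conj_re, conj_im]
    ring
  have h1 : |(w * (starRingEnd ℂ) (ω - ρ)).im| ≤ ‖w‖ * ‖ω - ρ‖ := by
    refine (abs_im_le_norm _).trans ?_
    rw [norm_mul, RCLike.norm_conj]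
  have h2 : |ω.im| * normSq (ω - ρ) * |(r : ℝ)| = |ω.im * normSq (ω - ρ) * r| := by
    rw [abs_mul, abs_mul, abs_of_nonneg (normSq_nonneg _)]
  have h3 := abs_add_le (x * ω.im) (w * (starRingEnd ℂ) (ω - ρ)).im
  rw [← e, ← h2, abs_mul] at h3
  unfold del
  linarith

/-- No rational root. -/
def Irr (a b : ℤ) : Prop := ∀ q r : ℤ, q ^ 3 - a * q ^ 2 * r - b * q * r ^ 2 - r ^ 3 = 0 → r = 0

lemma cube_ne_two (p : ℤ) : |p ^ 3| ≠ 2 := by
  intro h
  rw [abs_pow] at h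
  have h0 := abs_nonneg p
  generalize |p| = t at h h0
  have : t ≤ 1 ∨ 2 ≤ t := by omega
  rcases this with h1 | h1
  · interval_cases t <;> simp at h
  · have : 2 ^ 3 ≤ t ^ 3 := by gcongr
    omega

lemma Roots.del_le (h : Roots a b ρ ω) (hirr : Irr a b) {x : ℝ} {w : ℂ} (hS : S ρ ω x w)
    (hN : |x| * normSq w = 2) : del ρ ω ≤ 2 * ‖w‖ * (|x| + ‖w‖) ^ 2 := by
  obtain ⟨p, q, r, hx, hw⟩ := hS
  set I : ℤ := (q + a * r) ^ 3 - a * (q + a * r) ^ 2 * r - b * (q + a * r) * r ^ 2 - r ^ 3 with hI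
  have hI0 : I ≠ 0 := by
    intro h0
    have hr := hirr _ _ h0
    subst hr
    have hq : q = 0 := by simpa [hI] using h0
    subst hq
    have h2 := h.norm_eq p 0 0
    rw [← hx, ← hw] at h2
    have h3 : |(G a b p 0 0 : ℝ)| = 2 := by
      rw [← h2, abs_mul, abs_of_nonneg (normSq_nonneg _), hN]
    have h4 : |G a b p 0 0| = 2 := by exact_mod_cast h3
    simp only [G] at h4
    exact cube_ne_two p (by simpa using h4)
  have hI1 : (1 : ℝ) ≤ |(I : ℝ)| := by exact_mod_cast Int.one_le_abs hI0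
  have e : normSq (w - x) * w.im = normSq (ω - ρ) * ω.im * I := by
    have h1 := h.h1
    have hb := h.hb
    rw [normSq_apply] at h1 hb
    rw [normSq_apply, normSq_apply, hI]
    simp only [sub_re, ofReal_re, sub_im, ofReal_im, sub_zero]
    rw [hw, ev_re, ev_im, hx]
    push_cast
    rw [h.ha, hb]
    linear_combination (-((ω.re - ρ) * (ω.re - ρ) + ω.im * ω.im) * ω.im * r ^ 3) * h1
  have h1 : normSq (w - x) ≤ (|x| + ‖w‖) ^ 2 := by
    rw [normSq_eq_norm_sq]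
    gcongr
    refine (norm_sub_le _ _).trans ?_
    rw [norm_real, Real.norm_eq_abs, add_comm]
  have h2 := abs_im_le_norm w
  have h3 : normSq (ω - ρ) * |ω.im| * |(I : ℝ)| = normSq (w - x) * |w.im| := by
    have := congrArg abs e
    rw [abs_mul, abs_mul, abs_mul, abs_of_nonneg (normSq_nonneg _),
      abs_of_nonneg (normSq_nonneg _)] at this
    exact this.symm
  have h4 : normSq (w - x) * |w.im| ≤ (|x| + ‖w‖) ^ 2 * ‖w‖ := by gcongr
  have h5 : 0 ≤ normSq (ω - ρ) * |ω.im| := mul_nonneg (normSq_nonneg _) (abs_nonneg _)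
  unfold del
  nlinarith

lemma normalise (P : ℝ → ℂ → Prop) {l : ℝ} {η : ℂ} (hl : 1 < l) (hη : l * normSq η = 1)
    (h1 : ∀ x w, P x w → P (x * l) (w * η)) (h2 : ∀ x w, P x w → P (x / l) (w / η))
    {x : ℝ} {w : ℂ} (hP : P x w) (hN : |x| * normSq w = 2) :
    ∃ x' w', P x' w' ∧ |x'| * normSq w' = 2 ∧ 4 ≤ |x'| ^ 6 * l ^ 3 ∧ |x'| ^ 6 ≤ 4 * l ^ 3 := by
  have hl0 : 0 < l := by linarith
  have hη0 : η ≠ 0 := by rintro rfl; simp at hη
  have hall : ∀ k : ℤ, P (x * l ^ k) (w * η ^ k) := by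
    intro k
    induction k using Int.induction_on with
    | zero => simpa using hP
    | succ k ih =>
      have := h1 _ _ ih
      rwa [mul_assoc, mul_assoc, ← zpow_add_one₀ hl0.ne', ← zpow_add_one₀ hη0] at this
    | pred k ih =>
      have := h2 _ _ ih
      rwa [mul_div_assoc, mul_div_assoc, div_eq_mul_inv, div_eq_mul_inv, ← zpow_sub_one₀ hl0.ne',
        ← zpow_sub_one₀ hη0] at this
  have hx0 : 0 < |x| := by
    rcases (abs_nonneg x).lt_or_eq with h | h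
    · exact h
    · rw [← h] at hN; simp at hN
  obtain ⟨k, hk1, hk2⟩ := exists_mem_Ico_zpow (x := |x| ^ 6 * l ^ 3 / 4) (y := l ^ 6)
    (by positivity) (one_lt_pow₀ hl (by norm_num))
  have hlk : 0 < l ^ (-k) := zpow_pos hl0 _
  have e1 : |x * l ^ (-k)| = |x| * l ^ (-k) := by rw [abs_mul, abs_of_pos hlk]
  have e2 : (l ^ (-k)) ^ 6 * (l ^ 6) ^ k = 1 := by
    rw [← zpow_natCast, ← zpow_natCast, ← zpow_mul, ← zpow_mul, ← zpow_add₀ hl0.ne']
    simp [mul_comm]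
  rw [zpow_add_one₀ (by positivity)] at hk2
  have hA : 0 < (l ^ (-k)) ^ 6 := by positivity
  refine ⟨_, _, hall (-k), ?_, ?_, ?_⟩
  · rw [e1, map_mul, map_zpow₀]
    have : l ^ (-k) * normSq η ^ (-k) = 1 := by rw [← mul_zpow, hη, one_zpow]
    linear_combination (|x| * normSq w) * this + hN
  · rw [e1, mul_pow]
    have := mul_le_mul_of_nonneg_left hk1 hA.le
    rw [e2] at this
    linarith
  · rw [e1, mul_pow]
    have := mul_lt_mul_of_pos_left hk2 hA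
    rw [← mul_assoc _ ((l ^ 6) ^ k), e2] at this
    have h3 : 0 < l ^ 3 := by positivity
    have h4 : |x| ^ 6 * (l ^ (-k)) ^ 6 * l ^ 3 ≤ 4 * l ^ 3 * l ^ 3 := by nlinarith
    exact le_of_mul_le_mul_right h4 h3

lemma bound_T {X R l T : ℝ} (hX : 0 ≤ X) (hR : 0 ≤ R) (hN : X * R ^ 2 = 2) (h1 : 4 ≤ X ^ 6 * l ^ 3)
    (h2 : X ^ 6 ≤ 4 * l ^ 3) (hT : 1 ≤ T) (hl : l ^ 3 ≤ T ^ 4) :
    2 * R * (X + R) ^ 2 ≤ 4 * T + 12 := by
  have hA : (R * X ^ 2 / 2) ^ 4 ≤ T ^ 4 := by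
    have : (R * X ^ 2 / 2) ^ 4 = X ^ 6 / 4 := by
      linear_combination (X ^ 6 * (X * R ^ 2 + 2) / 16) * hN
    linarith
  have hB : (R ^ 3 / 2) ^ 4 ≤ T ^ 4 := by
    have h3 : X ^ 6 * R ^ 12 = 64 := by
      have : X ^ 6 * R ^ 12 = (X * R ^ 2) ^ 6 := by ring
      rw [this, hN]; norm_num
    have h4 : 4 * R ^ 12 ≤ X ^ 6 * l ^ 3 * R ^ 12 := by gcongr
    have h5 : X ^ 6 * l ^ 3 * R ^ 12 = 64 * l ^ 3 := by linear_combination l ^ 3 * h3
    have h6 : (R ^ 3 / 2) ^ 4 = R ^ 12 / 16 := by ring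
    linarith
  have hA' : R * X ^ 2 / 2 ≤ T := le_of_pow_le_pow_left₀ (by norm_num) (by linarith) hA
  have hB' : R ^ 3 / 2 ≤ T := le_of_pow_le_pow_left₀ (by norm_num) (by linarith) hB
  have hAB : R * X ^ 2 / 2 * (R ^ 3 / 2) = 1 := by
    linear_combination ((X * R ^ 2 + 2) / 4) * hN
  have hA0 : 0 ≤ R * X ^ 2 / 2 := by positivity
  have hB0 : 0 ≤ R ^ 3 / 2 := by positivity
  have e : 2 * R * (X + R) ^ 2 = 4 * (R * X ^ 2 / 2) + 4 * (R ^ 3 / 2) + 8 := by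
    linear_combination 4 * hN
  rw [e]
  generalize R * X ^ 2 / 2 = A at *
  generalize R ^ 3 / 2 = B at *
  rcases le_total A 1 with h | h
  · linarith
  · have : B ≤ 1 := by nlinarith
    linarith

lemma Roots.norm_lt_one (h : Roots a b ρ ω) (hρ : 1 < ρ) : ‖ω‖ < 1 := by
  have h1 := h.h1
  have h2 := h.normSq_pos
  have : ‖ω‖ ^ 2 < 1 ^ 2 := by rw [← normSq_eq_norm_sq]; nlinarith
  exact lt_of_pow_lt_pow_left₀ 2 (by norm_num) this

lemma Roots.normalise_theta (h : Roots a b ρ ω) (hρ : 1 < ρ) {x : ℝ} {w : ℂ} (hS : S ρ ω x w)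
    (hN : |x| * normSq w = 2) :
    ∃ x' w', S ρ ω x' w' ∧ |x'| * normSq w' = 2 ∧ 4 ≤ |x'| ^ 6 * ρ ^ 3 ∧ |x'| ^ 6 ≤ 4 * ρ ^ 3 :=
  normalise (S ρ ω) hρ h.h1 (fun _ _ => h.S_mul) (fun _ _ => h.S_div) hS hN

lemma big_general {c m : ℤ} (h : Roots (2 * c) (2 * m) ρ ω) (hρ : 1 < ρ) (hirr : Irr (2 * c) (2 * m))
    (hc : 33 ≤ c) (hk : m ^ 2 < 2 * c) {x : ℝ} {w : ℂ} (hS : S ρ ω x w)
    (hN : |x| * normSq w = 2) : False := by
  obtain ⟨x', w', hS', hN', h1, h2⟩ := h.normalise_theta hρ hS hN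
  have hre := (abs_re_le_norm ω).trans_lt (h.norm_lt_one hρ)
  have ha := h.ha
  push_cast at ha
  have hc' : (33 : ℝ) ≤ c := by exact_mod_cast hc
  have hU : ρ ≤ 2 * c + 2 := by linarith [(abs_lt.1 hre).1]
  have hT : ρ ^ 3 ≤ (5 * (2 * c + 2) / 14) ^ 4 := by
    calc ρ ^ 3 ≤ (2 * (c : ℝ) + 2) ^ 3 := by gcongr
      _ ≤ (2 * (c : ℝ) + 2) ^ 3 * ((2 * (c : ℝ) + 2) * (5 / 14) ^ 4) :=
          le_mul_of_one_le_right (by positivity) (by nlinarith)
      _ = _ := by ring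
  have h3 := (h.del_le hirr hS' hN').trans (bound_T (abs_nonneg _) (norm_nonneg _)
    (by rw [← normSq_eq_norm_sq]; exact hN') h1 h2 (by linarith) hT)
  have h4 : (D (2 * c) (2 * m) : ℝ) ≤ (4 * (5 * (2 * c + 2) / 14) + 12) ^ 2 := by
    rw [← h.del_sq]; gcongr; exact del_nonneg
  have h5 : 14 * c ^ 2 - 8 * c ≤ D (2 * c) (2 * m) := by
    obtain ⟨k, hk1, hk2⟩ : ∃ k, 1 ≤ k ∧ m ^ 2 = 2 * c - k := ⟨2 * c - m ^ 2, by omega, by ring⟩
    have e : D (2 * c) (2 * m) = 16 * c ^ 2 * k + 8 * m * (c + 4 * k) + 27 := by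
      rw [D_eq]; linear_combination (-16 * c ^ 2 - 32 * m) * hk2
    have hm : -c ≤ 4 * m := by
      by_contra hh
      push Not at hh
      nlinarith
    have h6 : -c * (c + 4 * k) ≤ 4 * m * (c + 4 * k) := by gcongr
    have h7 : 0 ≤ (k - 1) * (c * (2 * c - 1)) := by
      apply mul_nonneg (by omega) (mul_nonneg (by omega) (by omega))
    nlinarith
  have h6 : (14 * c ^ 2 - 8 * c : ℝ) ≤ D (2 * c) (2 * m) := by exact_mod_cast h5
  nlinarith

lemma big_family {c m : ℤ} (h : Roots (2 * c) (2 * m) ρ ω) (hρ : 1 < ρ) (hirr : Irr (2 * c) (2 * m))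
    (hc : 33 ≤ c) (hk : m ^ 2 = 2 * c) {x : ℝ} {w : ℂ} (hS : S ρ ω x w)
    (hN : |x| * normSq w = 2) : False := by
  have hD : D (2 * c) (2 * m) = 4 * m ^ 3 + 27 := by
    rw [D_eq, ← hk]; ring
  have hm : 9 ≤ m := by
    have h1 := h.D_pos
    by_contra hh
    push Not at hh
    have h2 : m ≤ -9 := by
      by_contra h3
      push Not at h3
      nlinarith
    have : m ^ 3 ≤ -9 * m ^ 2 := by nlinarith
    nlinarith
  have hm' : (9 : ℝ) ≤ m := by exact_mod_cast hm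
  have hρ0 := h.rho_pos
  have hω0 := h.om_ne
  have hinv : ρ⁻¹ < 1 := inv_lt_one_of_one_lt₀ hρ
  have hinv0 : 0 < ρ⁻¹ := inv_pos.2 hρ0
  have hk1 : (2 * c : ℝ) = m ^ 2 := by exact_mod_cast hk.symm
  have hk2 : (2 * c : ℂ) = m ^ 2 := by exact_mod_cast hk.symm
  have c1 := h.cubic_re
  have c2 := h.cubic_cx
  push_cast at c1 c2
  rw [hk1] at c1
  rw [hk2] at c2
  have e1 : ((m : ℝ) + ρ⁻¹) ^ 2 = ρ := by
    field_simp; linear_combination -c1
  have e2 : ((m : ℂ) + ω⁻¹) ^ 2 = ω := by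
    field_simp; linear_combination -c2
  have hl : 1 < (m : ℝ) + ρ⁻¹ := by linarith
  have hη : ((m : ℝ) + ρ⁻¹) * normSq ((m : ℂ) + ω⁻¹) = 1 := by
    have h0 : 0 ≤ ((m : ℝ) + ρ⁻¹) * normSq ((m : ℂ) + ω⁻¹) :=
      mul_nonneg (by linarith) (normSq_nonneg _)
    have : (((m : ℝ) + ρ⁻¹) * normSq ((m : ℂ) + ω⁻¹)) ^ 2 = 1 ^ 2 := by
      rw [mul_pow, ← map_pow, e1, e2, h.h1]; norm_num
    exact (pow_left_inj₀ h0 (by norm_num) (by norm_num)).1 this
  have hη0 : (m : ℂ) + ω⁻¹ ≠ 0 := by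
    intro h0; rw [h0] at hη; simp at hη
  have s1 : ∀ x w, S ρ ω x w → S ρ ω (x * (m + ρ⁻¹)) (w * (m + ω⁻¹)) := by
    intro x w hS
    have := S_comb m hS (h.S_div hS)
    convert this using 1 <;> ring
  have s2 : ∀ x w, S ρ ω x w → S ρ ω (x / (m + ρ⁻¹)) (w / (m + ω⁻¹)) := by
    intro x w hS
    have := h.S_div (s1 x w hS)
    convert this using 1
    · rw [div_eq_div_iff (by linarith) hρ0.ne']; linear_combination (-x) * e1
    · rw [div_eq_div_iff hη0 hω0]; linear_combination (-w) * e2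
  obtain ⟨x', w', hS', hN', h1, h2⟩ := normalise (S ρ ω) hl hη s1 s2 hS hN
  have hT : ((m : ℝ) + ρ⁻¹) ^ 3 ≤ ((m : ℝ) + 1) ^ 4 := by
    calc ((m : ℝ) + ρ⁻¹) ^ 3 ≤ ((m : ℝ) + 1) ^ 3 := by gcongr
      _ ≤ _ := pow_le_pow_right₀ (by linarith) (by norm_num)
  have h3 := (h.del_le hirr hS' hN').trans (bound_T (abs_nonneg _) (norm_nonneg _)
    (by rw [← normSq_eq_norm_sq]; exact hN') h1 h2 (by linarith) hT)
  have h4 : (D (2 * c) (2 * m) : ℝ) ≤ (4 * (m + 1) + 12) ^ 2 := by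
    rw [← h.del_sq]; gcongr; exact del_nonneg
  rw [hD] at h4
  push_cast at h4
  nlinarith

lemma big_neg {c m : ℤ} (hD : 0 < D (2 * c) (2 * m)) (hc : 33 ≤ c) (h1 : 0 < c + m) :
    m ^ 2 ≤ 2 * c := by
  by_contra hh
  push Not at hh
  obtain ⟨j, hj1, hj2⟩ : ∃ j, 1 ≤ j ∧ m ^ 2 = 2 * c + j := ⟨m ^ 2 - 2 * c, by omega, by ring⟩
  have e : D (2 * c) (2 * m) = -16 * c ^ 2 * j + 8 * m * (c - 4 * j) + 27 := by
    rw [D_eq]; linear_combination (-16 * c ^ 2 - 32 * m) * hj2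
  rw [e] at hD
  rcases le_total m 0 with hm | hm
  · have h2 : 8 * m * c ≤ 0 := by nlinarith
    have h3 : -m * j ≤ c * j := by gcongr; omega
    have h4 : 33 * (c * j) ≤ c * (c * j) := by gcongr
    have h5 : 33 ≤ c * j := by nlinarith
    nlinarith
  · have h2 : 0 ≤ m * j := by positivity
    have h3 : 16 * c ^ 2 * j < 8 * m * c + 27 := by nlinarith
    have h4 : 2 * c * j ≤ m := by
      by_contra h5
      push Not at h5
      have h6 : m + 1 ≤ 2 * c * j := h5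
      nlinarith
    have h5 : j ≤ c * j := by nlinarith
    have h6 : c ≤ c * j := by nlinarith
    nlinarith

theorem main_gt {c m : ℤ} (h : Roots (2 * c) (2 * m) ρ ω) (hρ : 1 < ρ) (hirr : Irr (2 * c) (2 * m))
    {x : ℝ} {w : ℂ} (hS : S ρ ω x w) (hN : |x| * normSq w = 2) : exc c m = true := by
  have hn := h.norm_lt_one hρ
  have hre := abs_lt.1 ((abs_re_le_norm ω).trans_lt hn)
  have ha := h.ha
  have hb := h.hb
  have h1 := h.h1
  have hq := h.normSq_pos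
  push_cast at ha hb
  have hcm : 0 < c + m := by
    have : (0 : ℝ) < c + m := by
      have h2 : (ρ - 1) * normSq (ω - 1) = 2 * (c + m) := by
        rw [normSq_apply] at hb h1 ⊢
        simp only [sub_re, one_re, sub_im, one_im, sub_zero]
        linear_combination -ha - hb + h1
      have h3 : 0 < normSq (ω - 1) := Complex.normSq_pos.2 fun h0 => h.him (by
        have := congrArg Complex.im h0; simpa using this)
      nlinarith
    exact_mod_cast this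
  by_cases hc : 33 ≤ c
  · exfalso
    rcases (big_neg h.D_pos hc hcm).lt_or_eq with hk | hk
    · exact big_general h hρ hirr hc hk hS hN
    · exact big_family h hρ hirr hc hk hS hN
  push Not at hc
  have hc' : (c : ℝ) ≤ 32 := by exact_mod_cast (by omega : c ≤ 32)
  have hU : ρ ≤ 2 * c + 2 := by linarith
  have hc0 : 0 ≤ c := by
    have : (-1 : ℝ) < c := by linarith
    have : -1 < c := by exact_mod_cast this
    omega
  have hc0' : (0 : ℝ) ≤ c := by exact_mod_cast hc0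
  have hm : |m| ≤ 9 := by
    have h2 : (ρ * ω.re) ^ 2 ≤ 9 ^ 2 := by
      have h3 : ω.re ^ 2 ≤ normSq ω := by rw [normSq_apply]; nlinarith [sq_nonneg ω.im]
      calc (ρ * ω.re) ^ 2 = ρ ^ 2 * ω.re ^ 2 := by ring
        _ ≤ ρ ^ 2 * normSq ω := by gcongr
        _ = ρ := by linear_combination ρ * h1
        _ ≤ 9 ^ 2 := by linarith
    have h3 := abs_le_of_sq_le_sq' h2 (by norm_num)
    have h4 : normSq ω < 1 := by nlinarith
    have h5 : (-10 : ℝ) < m := by linarith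
    have h6 : (m : ℝ) < 10 := by linarith
    have h7 : -10 < m := by exact_mod_cast h5
    have h8 : m < 10 := by exact_mod_cast h6
    rw [abs_le]; omega
  have hm1 : m ≠ c + 1 := by
    intro h0
    have := hirr (-1) 1 (by rw [h0]; ring)
    simp at this
  obtain ⟨x', w', ⟨p, q, r, hx, hw⟩, hN', h2, h3⟩ := h.normalise_theta hρ hS hN
  have hρ3 : ρ ^ 3 ≤ 66 ^ 3 := by gcongr; linarith
  have hX : |x'| ≤ 11 := le_of_pow_le_pow_left₀ (n := 6) (by norm_num) (by norm_num) (by linarith)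
  have hR : ‖w'‖ ≤ 4 := by
    refine le_of_pow_le_pow_left₀ (n := 12) (by norm_num) (by norm_num) ?_
    have h4 : |x'| ^ 6 * ‖w'‖ ^ 12 = 64 := by
      have : |x'| ^ 6 * ‖w'‖ ^ 12 = (|x'| * ‖w'‖ ^ 2) ^ 6 := by ring
      rw [this, ← normSq_eq_norm_sq, hN']; norm_num
    have h5 : 4 * ‖w'‖ ^ 12 ≤ |x'| ^ 6 * ρ ^ 3 * ‖w'‖ ^ 12 := by gcongr
    have h6 : |x'| ^ 6 * ρ ^ 3 * ‖w'‖ ^ 12 = 64 * ρ ^ 3 := by linear_combination ρ ^ 3 * h4
    linarith
  have hXω : |x'| * |ω.im| ≤ 3 / 2 := by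
    refine le_trans (mul_le_mul_of_nonneg_left (abs_im_le_norm ω) (abs_nonneg _)) ?_
    refine le_of_pow_le_pow_left₀ (n := 6) (by norm_num) (by norm_num) ?_
    have h4 : ρ ^ 3 * ‖ω‖ ^ 6 = 1 := by
      have : ρ ^ 3 * ‖ω‖ ^ 6 = (ρ * ‖ω‖ ^ 2) ^ 3 := by ring
      rw [this, ← normSq_eq_norm_sq, h1]; norm_num
    have h5 : |x'| ^ 6 * ‖ω‖ ^ 6 ≤ 4 * ρ ^ 3 * ‖ω‖ ^ 6 := by gcongr
    rw [mul_pow]
    linarith
  have hωρ : ‖ω - ρ‖ ≤ 2 * c + 3 := by
    refine (norm_sub_le _ _).trans ?_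
    rw [norm_real, Real.norm_eq_abs, abs_of_pos h.rho_pos]
    linarith
  have hr : del ρ ω * |(r : ℝ)| ≤ 16 * c + 27 := by
    have h4 := bound_r (ρ := ρ) (ω := ω) p q r
    rw [← hx, ← hw] at h4
    have h5 : ‖w'‖ * ‖ω - ρ‖ ≤ 4 * (2 * c + 3) := by gcongr
    linarith
  have hq' : del ρ ω * |((q + 2 * c * r : ℤ) : ℝ)| ≤ 22 * c + 30 := by
    have h4 := bound_r (ρ := ρ) (ω := ω) r (p + 2 * m * r) (q + 2 * c * r)
    have e1 : (r : ℝ) + (p + 2 * m * r : ℤ) * ρ + (q + 2 * c * r : ℤ) * ρ ^ 2 = x' * ρ := by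
      have := h.cubic_re
      rw [hx]; push_cast at this ⊢; linear_combination (-r) * this
    have e2 : (r : ℂ) + (p + 2 * m * r : ℤ) * ω + (q + 2 * c * r : ℤ) * ω ^ 2 = w' * ω := by
      have := h.cubic_cx
      rw [hw]; push_cast at this ⊢; linear_combination (-r) * this
    rw [e1, e2, abs_mul, abs_of_pos h.rho_pos, norm_mul] at h4
    have h5 : ‖w'‖ * ‖ω‖ * ‖ω - ρ‖ ≤ 4 * 1 * (2 * c + 3) := by gcongr
    have h6 : |x'| * |ω.im| * ρ ≤ 3 / 2 * (2 * c + 2) := by gcongr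
    nlinarith
  have sq_bd : ∀ (t : ℤ) (B : ℤ), del ρ ω * |(t : ℝ)| ≤ B → D (2 * c) (2 * m) * t ^ 2 ≤ B ^ 2 := by
    intro t B ht
    have : (D (2 * c) (2 * m) : ℝ) * t ^ 2 ≤ B ^ 2 := by
      rw [← h.del_sq, ← sq_abs (t : ℝ), ← mul_pow]
      gcongr
      exact mul_nonneg del_nonneg (abs_nonneg _)
    exact_mod_cast this
  refine finite_check (p := p) (q := q) (r := r) hc0 (by omega) hm hcm hm1 h.D_pos
    (sq_bd _ _ (by push_cast; exact hr)) (sq_bd _ _ (by push_cast at hq' ⊢; exact hq')) ?_ ?_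
  · have e : ((3 * p + 2 * c * q + (4 * c ^ 2 + 4 * m) * r : ℤ) : ℝ) = x' + 2 * w'.re := by
      rw [hw, ev_re, hx]
      rw [normSq_apply] at hb
      push_cast
      linear_combination (q + r * (2 * c + ρ + 2 * ω.re)) * ha + 2 * r * hb
    have h4 := abs_re_le_norm w'
    have h5 : |x' + 2 * w'.re| ≤ 19 := by
      refine (abs_add_le _ _).trans ?_
      rw [abs_mul, abs_two]; linarith
    rw [← e] at h5
    exact_mod_cast h5
  · have h4 := h.norm_eq p q r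
    rw [← hx, ← hw] at h4
    have h5 : |(G (2 * c) (2 * m) p q r : ℝ)| = 2 := by
      rw [← h4, abs_mul, abs_of_nonneg (normSq_nonneg _), hN']
    exact_mod_cast h5

lemma Roots.mirror (h : Roots a b ρ ω) : Roots (-b) (-a) ρ⁻¹ ω⁻¹ := by
  have h0 := h.rho_pos.ne'
  have h1 := h.normSq_pos.ne'
  have h2 := h.h1
  have h3 : (normSq ω)⁻¹ = ρ := by field_simp; linarith
  have h4 : ρ⁻¹ = normSq ω := by field_simp; linarith
  refine ⟨?_, ?_, ?_, ?_⟩
  · rw [inv_im]; exact div_ne_zero (neg_ne_zero.2 h.him) h1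
  · push_cast; rw [h.hb, inv_re, div_eq_mul_inv, h3, h4]; ring
  · push_cast; rw [h.ha, inv_re, map_inv₀, div_eq_mul_inv, h3]; field_simp; ring
  · rw [map_inv₀, ← mul_inv, h2, inv_one]

lemma Irr.mirror (h : Irr a b) : Irr (-b) (-a) := by
  intro q r h0
  have hq := h r q (by linear_combination -h0)
  subst hq
  simpa using h0

lemma G_mirror (a b p q r : ℤ) : G (-b) (-a) r q p = G a b p q r := by
  unfold G; ring

theorem main_all {c m p q r : ℤ} (h : Roots (2 * c) (2 * m) ρ ω) (hirr : Irr (2 * c) (2 * m))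
    (hG : |G (2 * c) (2 * m) p q r| = 2) : exc c m = true ∨ exc (-m) (-c) = true := by
  have key : ∀ {c m p q r : ℤ} {ρ : ℝ} {ω : ℂ}, Roots (2 * c) (2 * m) ρ ω → 1 < ρ →
      Irr (2 * c) (2 * m) → |G (2 * c) (2 * m) p q r| = 2 → exc c m = true := by
    intro c m p q r ρ ω h hρ hirr hG
    refine main_gt h hρ hirr ⟨p, q, r, rfl, rfl⟩ ?_
    have h4 := congrArg abs (h.norm_eq p q r)
    rw [abs_mul, abs_of_nonneg (normSq_nonneg _)] at h4
    rw [h4]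
    exact_mod_cast hG
  rcases lt_trichotomy ρ 1 with hρ | hρ | hρ
  · right
    have h1 := h.mirror
    have h2 := hirr.mirror
    rw [← G_mirror] at hG
    rw [← mul_neg, ← mul_neg] at h1 h2 hG
    exact key h1 ((one_lt_inv₀ h.rho_pos).2 hρ) h2 hG
  · exfalso
    have h1 := h.cubic_re
    rw [hρ] at h1
    have h2 : 2 * c + 2 * m = 0 := by
      have : ((2 * c + 2 * m : ℤ) : ℝ) = 0 := by push_cast at h1 ⊢; linarith
      exact_mod_cast this
    have := hirr 1 1 (by linarith)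
    simp at this
  · exact Or.inl (key h hρ hirr hG)

end Pool.Agent.P.MP_d44d58_nt
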