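import Mathlib

/-! The Hessenberg family `M(m,n)`, NRS-matrices and reducedness. -/

open Matrix

namespace Pool.Agent.P.MP_d44d58_nt

/-- The matrix `M(m,n)`. -/
def M (m n : ℤ) : Matrix (Fin 3) (Fin 3) ℤ := !![0, 1, n + 1; 1, 1, m + n; 0, 2, 2 * n + 1]

/-- The characteristic polynomial is irreducible over `ℚ` and has one real root and two non-real
complex conjugate roots. -/
def IsNRS (A : Matrix (Fin 3) (Fin 3) ℤ) : Prop :=
  Irreducible (A.charpoly.map (Int.castRingHom ℚ)) ∧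
    ∃ (ρ : ℝ) (ω : ℂ), ω.im ≠ 0 ∧
      (A.charpoly.map (Int.castRingHom ℂ)).roots = {(ρ : ℂ), ω, (starRingEnd ℂ) ω}

/-- `Δ_A(v) = |det (v, A v, A² v)|`. -/
def Delta (A : Matrix (Fin 3) (Fin 3) ℤ) (v : Fin 3 → ℤ) : ℤ :=
  |(Matrix.of ![v, A *ᵥ v, (A ^ 2) *ᵥ v]).det|

/-- `Δ_A` attains its minimum over nonzero integer vectors at `e₁`. -/
def IsReduced (A : Matrix (Fin 3) (Fin 3) ℤ) : Prop :=
  ∀ v : Fin 3 → ℤ, v ≠ 0 → Delta A ![1, 0, 0] ≤ Delta A v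

end Pool.Agent.P.MP_d44d58_nt
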