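import Pool.Agent.P.MP_d44d58_nt.Defs
import Pool.Agent.P.MP_d44d58_nt.Core

/-! From matrices to the norm form. -/

open Complex Polynomial Matrix

namespace Pool.Agent.P.MP_d44d58_nt

/-- The cubic `t³ - a t² - b t - 1`. -/
noncomputable def cub (a b : ℤ) : ℤ[X] := X ^ 3 - C a * X ^ 2 - C b * X - 1

lemma cub_monic (a b : ℤ) : (cub a b).Monic := by
  unfold cub; monicity!

lemma cub_natDegree (a b : ℤ) : (cub a b).natDegree = 3 := by
  unfold cub; compute_degree!

lemma charpoly_M (m n : ℤ) : (M m n).charpoly = cub (2 * (n + 1)) (2 * m) := by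
  rw [Matrix.charpoly, Matrix.det_fin_three]
  simp [M, cub, Matrix.charmatrix_apply_ne]
  ring

lemma eval_cub {K : Type*} [CommRing K] (a b : ℤ) (z : K) :
    ((cub a b).map (Int.castRingHom K)).eval z = z ^ 3 - a * z ^ 2 - b * z - 1 := by
  simp [cub]

lemma roots_of_multiset {a b : ℤ} {ρ : ℝ} {ω : ℂ} (him : ω.im ≠ 0)
    (h : ((cub a b).map (Int.castRingHom ℂ)).roots = {(ρ : ℂ), ω, (starRingEnd ℂ) ω}) :
    Roots a b ρ ω := by
  have hm := (cub_monic a b).map (Int.castRingHom ℂ)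
  have hd : ((cub a b).map (Int.castRingHom ℂ)).natDegree = 3 := by
    rw [(cub_monic a b).natDegree_map, cub_natDegree]
  have hp := prod_multiset_X_sub_C_of_monic_of_roots_card_eq hm (by rw [h, hd]; simp)
  rw [h] at hp
  have key : ∀ z : ℂ, (z - ρ) * ((z - ω) * (z - (starRingEnd ℂ) ω)) =
      z ^ 3 - a * z ^ 2 - b * z - 1 := by
    intro z
    rw [← eval_cub, ← hp]
    simp
  have h0 := key 0
  have h1 := key 1
  have h2 := key (-1)
  have h3 : (2 * ω.re : ℂ) = ω + (starRingEnd ℂ) ω := by rw [add_conj]; simp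
  have h4 : (normSq ω : ℂ) = (starRingEnd ℂ) ω * ω := normSq_eq_conj_mul_self
  refine ⟨him, ?_, ?_, ?_⟩
  · have : (a : ℂ) = ρ + 2 * ω.re := by
      linear_combination (1 / 2 : ℂ) * h1 + (1 / 2 : ℂ) * h2 - h0 - h3
    exact_mod_cast this
  · have : (b : ℂ) = -(2 * ρ * ω.re + normSq ω) := by
      linear_combination (1 / 2 : ℂ) * h1 - (1 / 2 : ℂ) * h2 + ρ * h3 + h4
    exact_mod_cast this
  · have : (ρ * normSq ω : ℂ) = 1 := by
      linear_combination -h0 + ρ * h4
    exact_mod_cast this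

lemma Roots.multiset {a b : ℤ} {ρ : ℝ} {ω : ℂ} (h : Roots a b ρ ω) :
    ((cub a b).map (Int.castRingHom ℂ)).roots = {(ρ : ℂ), ω, (starRingEnd ℂ) ω} := by
  rw [← roots_multiset_prod_X_sub_C ({(ρ : ℂ), ω, (starRingEnd ℂ) ω} : Multiset ℂ)]
  congr 1
  apply Polynomial.funext
  intro z
  have ha : (a : ℂ) = ((ρ + 2 * ω.re : ℝ) : ℂ) := by rw [← h.ha]; simp
  have hb : (b : ℂ) = ((-(2 * ρ * ω.re + normSq ω) : ℝ) : ℂ) := by rw [← h.hb]; simp
  have h1 : ((ρ * normSq ω : ℝ) : ℂ) = 1 := by rw [h.h1]; simp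
  have h2 : (2 * ω.re : ℂ) = ω + (starRingEnd ℂ) ω := by rw [add_conj]; simp
  push_cast at ha hb h1
  rw [normSq_eq_conj_mul_self] at hb h1
  rw [eval_cub, ha, hb]
  simp only [Multiset.insert_eq_cons, Multiset.map_cons, Multiset.map_singleton,
    Multiset.prod_cons, Multiset.prod_singleton, eval_mul, eval_sub, eval_X, eval_C]
  linear_combination h1 + (ρ * z - z ^ 2) * h2

lemma exists_roots {a b : ℤ} (hD : 0 < D a b) (hb : |a| + |b| ≤ 20) : ∃ ρ ω, Roots a b ρ ω := by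
  have hc : Continuous fun t : ℝ => t ^ 3 - a * t ^ 2 - b * t - 1 := by fun_prop
  have ha' : (a : ℝ) ≤ 20 := by
    have : a ≤ 20 := by have := le_abs_self a; have := abs_nonneg b; omega
    exact_mod_cast this
  have hb' : (b : ℝ) ≤ 20 := by
    have : b ≤ 20 := by have := le_abs_self b; have := abs_nonneg a; omega
    exact_mod_cast this
  obtain ⟨ρ, -, hρ⟩ := intermediate_value_Icc (a := (0 : ℝ)) (b := 30) (by norm_num)
    hc.continuousOn (show (0 : ℝ) ∈ Set.Icc _ _ from ⟨by norm_num, by nlinarith⟩)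
  simp only at hρ
  have hρ0 : ρ ≠ 0 := by rintro rfl; norm_num at hρ
  set s : ℝ := a - ρ with hs
  set t : ℝ := ρ ^ 2 - a * ρ - b with ht
  have hst : ρ * t = 1 := by rw [ht]; linear_combination hρ
  have hD' : (0 : ℝ) < D a b := by exact_mod_cast hD
  have e : (D a b : ℝ) = (4 * t - s ^ 2) * (ρ ^ 2 - s * ρ + t) ^ 2 := by
    have ea : (a : ℝ) = ρ + s := by rw [hs]; ring
    have eb : (b : ℝ) = -(ρ * s + t) := by rw [ht, hs]; ring
    rw [D_eq]
    push_cast
    rw [ea, eb]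
    linear_combination (-4 * (ρ + s) ^ 3 + 18 * (ρ + s) * (ρ * s + t) - 27 * (ρ * t + 1)) * hst
  have hpos : 0 < 4 * t - s ^ 2 := by
    rw [e] at hD'
    by_contra hh
    push Not at hh
    nlinarith [sq_nonneg (ρ ^ 2 - s * ρ + t)]
  have hsq := Real.sq_sqrt hpos.le
  have hn : normSq (⟨s / 2, √(4 * t - s ^ 2) / 2⟩ : ℂ) = t := by
    rw [normSq_mk]; linear_combination (1 / 4) * hsq
  refine ⟨ρ, ⟨s / 2, √(4 * t - s ^ 2) / 2⟩, ?_, ?_, ?_, ?_⟩
  · exact (div_pos (Real.sqrt_pos.2 hpos) two_pos).ne'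
  · simp only [hs]; ring
  · rw [hn, ht, hs]; ring
  · rw [hn, hst]

lemma lin_indep {a b : ℤ} (hirr : Irreducible ((cub a b).map (Int.castRingHom ℚ))) {θ : ℂ}
    (hθ : θ ^ 3 = a * θ ^ 2 + b * θ + 1) {p q r : ℤ} (h : (p : ℂ) + q * θ + r * θ ^ 2 = 0) :
    p = 0 ∧ q = 0 ∧ r = 0 := by
  have hm := (cub_monic a b).map (Int.castRingHom ℚ)
  have h1 : aeval θ ((cub a b).map (Int.castRingHom ℚ)) = 0 := by
    simp [cub]; linear_combination hθ
  have h2 := minpoly.eq_of_irreducible_of_monic hirr h1 hm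
  set g : ℚ[X] := C (p : ℚ) + C (q : ℚ) * X + C (r : ℚ) * X ^ 2 with hg
  have h3 : aeval θ g = 0 := by simpa [hg] using h
  have h4 : g = 0 := by
    by_contra hne
    have h5 := minpoly.degree_le_of_ne_zero ℚ θ hne h3
    have h6 : g.degree ≤ 2 := by rw [hg]; compute_degree
    rw [← h2, degree_eq_natDegree hm.ne_zero, (cub_monic a b).natDegree_map, cub_natDegree] at h5
    exact absurd (h5.trans h6) (by decide)
  have c0 := congrArg (fun f => coeff f 0) h4
  have c1 := congrArg (fun f => coeff f 1) h4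
  have c2 := congrArg (fun f => coeff f 2) h4
  simp [hg, coeff_X, coeff_C, -map_intCast] at c0 c1 c2
  exact ⟨c0, c1, c2⟩

lemma irr_of_irreducible {a b : ℤ} (hirr : Irreducible ((cub a b).map (Int.castRingHom ℚ))) :
    Irr a b := by
  intro q r h
  by_contra hr
  have hr' : (r : ℂ) ≠ 0 := by exact_mod_cast hr
  have h' : (q : ℂ) ^ 3 - a * q ^ 2 * r - b * q * r ^ 2 - r ^ 3 = 0 := by exact_mod_cast h
  have := lin_indep hirr (θ := q / r) (by field_simp; linear_combination h') (p := q) (q := -r)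
    (r := 0) (by push_cast; field_simp; ring)
  exact hr (by omega)

lemma irreducible_cub {a b : ℤ} (h1 : a + b ≠ 0) (h2 : b ≠ a + 2) :
    Irreducible ((cub a b).map (Int.castRingHom ℚ)) := by
  refine irreducible_of_degree_le_three_of_not_isRoot
    (by rw [(cub_monic a b).natDegree_map, cub_natDegree]; simp) fun x hx => ?_
  have hx' : aeval x (cub a b) = 0 := by
    rw [IsRoot, eval_cub] at hx
    simpa [cub] using hx
  obtain ⟨t, ht⟩ := isInteger_of_is_root_of_monic (cub_monic a b) hx'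
  rw [IsRoot, eval_cub, ← ht] at hx
  have h3 : t * (t ^ 2 - a * t - b) = 1 := by
    have : ((t * (t ^ 2 - a * t - b) : ℤ) : ℚ) = 1 := by
      simp only [algebraMap_int_eq, eq_intCast] at hx
      push_cast; linear_combination hx
    exact_mod_cast this
  rcases Int.eq_one_or_neg_one_of_mul_eq_one h3 with rfl | rfl
  · apply h1; linarith
  · apply h2; linarith

/-- The determinant as a polynomial. -/
def F (m n x y z : ℤ) : ℤ :=
  (Matrix.of ![![x, y, z], M m n *ᵥ ![x, y, z], (M m n ^ 2) *ᵥ ![x, y, z]]).det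

lemma F_eq (m n x y z : ℤ) : 4 * F m n x y z = G (2 * (n + 1)) (2 * m) (2 * x - z) (2 * y - z) z := by
  rw [F, pow_two, ← Matrix.mulVec_mulVec, Matrix.det_fin_three]
  simp [M, G, dotProduct, Fin.sum_univ_three]
  ring

lemma exists_G (m n x y z : ℤ) :
    ∃ p q r, G (2 * (n + 1)) (2 * m) p q r = 2 * F m n x y z ^ 2 := by
  let u := M m n *ᵥ ![x, y, z]
  let w := M m n *ᵥ u
  refine ⟨u 1 * w 2 - u 2 * w 1, z * w 1 - y * w 2, y * u 2 - z * u 1, ?_⟩
  rw [F, pow_two (M m n), ← Matrix.mulVec_mulVec, Matrix.det_fin_three]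
  simp [u, w, M, G, dotProduct, Fin.sum_univ_three]
  ring

lemma Delta_eq (m n x y z : ℤ) : Delta (M m n) ![x, y, z] = |F m n x y z| := rfl

lemma Delta_e1 (m n : ℤ) : Delta (M m n) ![1, 0, 0] = 2 := by
  have h := F_eq m n 1 0 0
  rw [Delta_eq]
  have : F m n 1 0 0 = 2 := by
    simp only [G] at h
    linarith
  rw [this]; rfl

/-- The twelve pairs. -/
def twelve : Finset (ℤ × ℤ) :=
  {(-5, 2), (-3, 1), (-3, 4), (-2, -3), (-2, 0), (-2, 2), (-1, -2), (-1, -1), (-1, 1), (0, 0),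
    (1, 0), (2, 1)}

theorem mem_twelve_of {m n : ℤ} (h1 : IsNRS (M m n)) (h2 : ¬IsReduced (M m n)) :
    (m, n) ∈ twelve := by
  obtain ⟨hirr, ρ, ω, him, hroots⟩ := h1
  rw [charpoly_M] at hirr hroots
  have hR := roots_of_multiset him hroots
  unfold IsReduced at h2
  push Not at h2
  obtain ⟨v, hv, hlt⟩ := h2
  obtain ⟨x, y, z, rfl⟩ : ∃ x y z, v = ![x, y, z] :=
    ⟨v 0, v 1, v 2, by ext i; fin_cases i <;> rfl⟩
  rw [Delta_e1, Delta_eq] at hlt
  have hF0 : F m n x y z ≠ 0 := by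
    intro h0
    have h3 := hR.norm_eq (2 * x - z) (2 * y - z) z
    rw [← F_eq, h0] at h3
    simp only [mul_zero, Int.cast_zero, mul_eq_zero] at h3
    have h4 : 2 * x - z = 0 ∧ 2 * y - z = 0 ∧ z = 0 := by
      rcases h3 with h3 | h3
      · refine lin_indep hirr (θ := ρ) ?_ ?_
        · exact_mod_cast hR.cubic_re
        · exact_mod_cast h3
      · exact lin_indep hirr hR.cubic_cx (normSq_eq_zero.1 h3)
    apply hv
    obtain ⟨h5, h6, h7⟩ := h4
    have hx : x = 0 := by omega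
    have hy : y = 0 := by omega
    subst hx hy h7
    ext i; fin_cases i <;> rfl
  have hF1 : F m n x y z ^ 2 = 1 := by
    have := abs_pos.2 hF0
    have h3 : |F m n x y z| = 1 := by omega
    rw [← sq_abs, h3]; rfl
  obtain ⟨p, q, r, hG⟩ := exists_G m n x y z
  rw [hF1] at hG
  have := main_all (p := p) (q := q) (r := r) hR (irr_of_irreducible hirr) (by rw [hG]; rfl)
  simp only [exc, Bool.or_eq_true, Bool.and_eq_true, beq_iff_eq] at this
  have key : ∀ a b : ℤ, (a, b) ∈ twelve → m = a → n = b → (m, n) ∈ twelve := by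
    rintro a b h rfl rfl; exact h
  clear * - this key
  rcases this with (((((h | h) | h) | h) | h) | h) | (((((h | h) | h) | h) | h) | h)
  · exact key 0 0 (by decide) (by omega) (by omega)
  · exact key 1 0 (by decide) (by omega) (by omega)
  · exact key (-1) 1 (by decide) (by omega) (by omega)
  · exact key 2 1 (by decide) (by omega) (by omega)
  · exact key (-2) 2 (by decide) (by omega) (by omega)
  · exact key (-3) 4 (by decide) (by omega) (by omega)
  · exact key (-1) (-1) (by decide) (by omega) (by omega)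
  · exact key (-1) (-2) (by decide) (by omega) (by omega)
  · exact key (-2) 0 (by decide) (by omega) (by omega)
  · exact key (-2) (-3) (by decide) (by omega) (by omega)
  · exact key (-3) 1 (by decide) (by omega) (by omega)
  · exact key (-5) 2 (by decide) (by omega) (by omega)

lemma isNRS_of {m n : ℤ} (h1 : 2 * (n + 1) + 2 * m ≠ 0) (h2 : 2 * m ≠ 2 * (n + 1) + 2)
    (hD : 0 < D (2 * (n + 1)) (2 * m)) (hb : |2 * (n + 1)| + |2 * m| ≤ 20) : IsNRS (M m n) := by
  obtain ⟨ρ, ω, h⟩ := exists_roots hD hb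
  rw [IsNRS, charpoly_M]
  exact ⟨irreducible_cub h1 h2, ρ, ω, h.him, h.multiset⟩

lemma not_reduced_of {m n : ℤ} (x y : ℤ)
    (h : |G (2 * (n + 1)) (2 * m) (2 * x - 1) (2 * y - 1) 1| = 4) : ¬IsReduced (M m n) := by
  intro hr
  have h1 := hr ![x, y, 1] (fun h0 => by simpa using congrFun h0 2)
  rw [Delta_e1, Delta_eq] at h1
  rw [← F_eq, abs_mul] at h
  norm_num at h
  omega

theorem of_mem_twelve {m n : ℤ} (h : (m, n) ∈ twelve) : IsNRS (M m n) ∧ ¬IsReduced (M m n) := by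
  simp only [twelve, Finset.mem_insert, Finset.mem_singleton, Prod.mk.injEq] at h
  rcases h with ⟨rfl, rfl⟩ | ⟨rfl, rfl⟩ | ⟨rfl, rfl⟩ | ⟨rfl, rfl⟩ | ⟨rfl, rfl⟩ | ⟨rfl, rfl⟩ |
    ⟨rfl, rfl⟩ | ⟨rfl, rfl⟩ | ⟨rfl, rfl⟩ | ⟨rfl, rfl⟩ | ⟨rfl, rfl⟩ | ⟨rfl, rfl⟩
  all_goals refine ⟨isNRS_of (by decide) (by decide) (by decide) (by decide), ?_⟩
  · exact not_reduced_of 1 (-1) (by decide)
  · exact not_reduced_of 1 (-1) (by decide)
  · exact not_reduced_of 1 (-1) (by decide)
  · exact not_reduced_of 0 1 (by decide)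
  · exact not_reduced_of 1 0 (by decide)
  · exact not_reduced_of 1 (-1) (by decide)
  · exact not_reduced_of 0 1 (by decide)
  · exact not_reduced_of 1 0 (by decide)
  · exact not_reduced_of 1 0 (by decide)
  · exact not_reduced_of 0 0 (by decide)
  · exact not_reduced_of 0 0 (by decide)
  · exact not_reduced_of 0 0 (by decide)

theorem set_eq :
    {p : ℤ × ℤ | IsNRS (M p.1 p.2) ∧ ¬IsReduced (M p.1 p.2)} = (twelve : Set (ℤ × ℤ)) := by
  ext ⟨m, n⟩
  exact ⟨fun h => mem_twelve_of h.1 h.2, fun h => of_mem_twelve h⟩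

end Pool.Agent.P.MP_d44d58_nt
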